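import Pool.Agent.H729Z.ResP.Grp

/-!
Quotients of the coded groups have torsion for only finitely many primes outside the code.
-/

set_option autoImplicit false

namespace Pool.Agent.H729Z.ResP

open LaurentPolynomial

instance : IsNoetherianRing R :=
  IsLocalization.isNoetherianRing (Submonoid.powers (Polynomial.X : Polynomial ℤ)) R inferInstance

/-- the additive group of middle entries of degree zero elements -/
def I0 (M : Subgroup F) : AddSubgroup R where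
  carrier := {x | ∃ m ∈ M, (φ m).n = 0 ∧ (φ m).f = x}
  zero_mem' := ⟨1, M.one_mem, by simp, by simp⟩
  add_mem' := by
    rintro _ _ ⟨a, ha, ha1, rfl⟩ ⟨b, hb, hb1, rfl⟩
    exact ⟨a * b, M.mul_mem ha hb, by simp [ha1, hb1], by simp [ha1]⟩
  neg_mem' := by
    rintro _ ⟨a, ha, ha1, rfl⟩
    exact ⟨a⁻¹, M.inv_mem ha, by simp [ha1], by simp [ha1]⟩

theorem I0_mul (M : Subgroup F) [hM : M.Normal] (r x : R) (hx : x ∈ I0 M) : r * x ∈ I0 M := by
  induction r using LaurentPolynomial.induction_on' with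
  | add a b ha hb => rw [add_mul]; exact (I0 M).add_mem ha hb
  | C_mul_T k a =>
    have h1 : T k * x ∈ I0 M := by
      obtain ⟨m, hm, hm1, rfl⟩ := hx
      exact ⟨wt ^ k * m * (wt ^ k)⁻¹, hM.conj_mem m hm _, by rw [conj_wt k m hm1],
        by rw [conj_wt k m hm1]⟩
    have h2 : C a * T k * x = a • (T k * x) := by
      rw [zsmul_eq_mul, mul_assoc, eq_intCast]
    rw [h2]
    exact (I0 M).zsmul_mem h1 a

/-- the ideal of middle entries -/
def I1 (M : Subgroup F) [M.Normal] : Ideal R where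
  carrier := I0 M
  zero_mem' := (I0 M).zero_mem
  add_mem' := fun ha hb => (I0 M).add_mem ha hb
  smul_mem' := fun r x hx => I0_mul M r x hx

theorem exists_kill (I : Ideal R) : ∃ E : ℕ, E ≠ 0 ∧ ∀ q : ℕ, q.Prime → ∀ x : R, (q : R) * x ∈ I →
    x ∉ I → q ∣ E := by
  let J : ℕ →o Ideal R :=
    { toFun := fun n => Submodule.comap (LinearMap.mulLeft R ((n.factorial : ℕ) : R)) I
      monotone' := by
        intro a b hab x hx
        obtain ⟨e, he⟩ := Nat.factorial_dvd_factorial hab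
        have hx' : ((a.factorial : ℕ) : R) * x ∈ I := hx
        show ((b.factorial : ℕ) : R) * x ∈ I
        rw [he, Nat.cast_mul, mul_comm ((a.factorial : ℕ) : R), mul_assoc]
        exact I.mul_mem_left _ hx' }
  obtain ⟨N, hN⟩ := monotone_stabilizes_iff_noetherian.2 (inferInstance : IsNoetherian R R) J
  refine ⟨N.factorial, N.factorial_ne_zero, fun q hq x hx hxI => ?_⟩
  by_contra hdvd
  apply hxI
  have h1 : x ∈ J (max N q) := by
    show (((max N q).factorial : ℕ) : R) * x ∈ I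
    obtain ⟨e, he⟩ := Nat.dvd_factorial hq.pos (le_max_right N q)
    rw [he, Nat.cast_mul, mul_comm (q : R), mul_assoc]
    exact I.mul_mem_left _ hx
  rw [← hN _ (le_max_left N q)] at h1
  have h2 : ((N.factorial : ℕ) : R) * x ∈ I := h1
  have hcop : IsCoprime (q : R) ((N.factorial : ℕ) : R) :=
    Nat.Coprime.cast ((Nat.Prime.coprime_iff_not_dvd hq).2 hdvd)
  obtain ⟨u, v, huv⟩ := hcop
  have h3 : x = u * ((q : R) * x) + v * (((N.factorial : ℕ) : R) * x) := by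
    linear_combination (-x) * huv
  rw [h3]
  exact I.add_mem (I.mul_mem_left _ hx) (I.mul_mem_left _ h2)

theorem deg_zero (M : Subgroup F) [M.Normal] (hL : NT ∅ ≤ M) :
    ∃ E : ℕ, E ≠ 0 ∧ ∀ q : ℕ, q.Prime → ∀ w, (φ w).n = 0 → w ∉ M → w ^ q ∈ M → q ∣ E := by
  obtain ⟨E, hE, h⟩ := exists_kill (I1 M)
  refine ⟨E, hE, fun q hq w hw hwM hwq => h q hq (φ w).f ?_ ?_⟩
  · exact ⟨w ^ q, hwq, by rw [map_pow, pow_n, hw, mul_zero], by rw [map_pow, pow_f _ hw]⟩
  · rintro ⟨m, hm, hm1, hm2⟩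
    apply hwM
    have h1 : m⁻¹ * w ∈ NT ∅ := ⟨by simp [hm1, hw], by simp [hm1, hm2], by simp⟩
    have := M.mul_mem hm (hL h1)
    simpa using this

theorem top_fin (M : Subgroup F) [M.Normal] (hL : NT ∅ ≤ M) :
    ∃ E : ℕ, E ≠ 0 ∧ ∀ q : ℕ, q.Prime → ∀ w, w ∉ M → w ^ q ∈ M → q ∣ E := by
  obtain ⟨E, hE, h⟩ := deg_zero M hL
  by_cases hd : ∃ m ∈ M, (φ m).n ≠ 0
  · obtain ⟨m, hm, hd⟩ := hd
    refine ⟨E * (φ m).n.natAbs, Nat.mul_ne_zero hE (Int.natAbs_ne_zero.2 hd), fun q hq w hw hwq => ?_⟩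
    haveI := Fact.mk hq
    have hne : (QuotientGroup.mk w : F ⧸ M) ≠ 1 := by rwa [Ne, QuotientGroup.eq_one_iff]
    have hpow : (QuotientGroup.mk w : F ⧸ M) ^ q = 1 := by
      rw [← QuotientGroup.mk_pow, QuotientGroup.eq_one_iff]; exact hwq
    have hord := orderOf_eq_prime hpow hne
    have hm1 : (QuotientGroup.mk m : F ⧸ M) = 1 := (QuotientGroup.eq_one_iff _).2 hm
    have hmk : (QuotientGroup.mk (w ^ (φ m).n * m ^ (-(φ w).n)) : F ⧸ M) =
        (QuotientGroup.mk w : F ⧸ M) ^ (φ m).n := by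
      rw [QuotientGroup.mk_mul, QuotientGroup.mk_zpow, QuotientGroup.mk_zpow, hm1, one_zpow, mul_one]
    by_cases hin : w ^ (φ m).n * m ^ (-(φ w).n) ∈ M
    · rw [← QuotientGroup.eq_one_iff, hmk, ← orderOf_dvd_iff_zpow_eq_one, hord] at hin
      exact Dvd.dvd.mul_left (Int.natCast_dvd.1 hin) E
    · refine Dvd.dvd.mul_right (h q hq _ ?_ hin ?_) _
      · rw [map_mul, map_zpow, map_zpow, mul_n, zpow_n, zpow_n]; ring
      · rw [← QuotientGroup.eq_one_iff, QuotientGroup.mk_pow, hmk, ← zpow_natCast, ← zpow_mul, mul_comm,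
          zpow_mul, zpow_natCast, hpow, one_zpow]
  · push Not at hd
    refine ⟨E, hE, fun q hq w hw hwq => h q hq w ?_ hw hwq⟩
    have h1 := hd _ hwq
    rw [map_pow, pow_n] at h1
    rcases mul_eq_zero.1 h1 with h2 | h2
    · exact absurd (by exact_mod_cast h2) hq.ne_zero
    · exact h2

theorem central_kill (X : Set ℕ) (k : ℕ) (hk : k ∉ X) (l : F) (hl : l ∈ NT ∅) :
    ∃ e : ℕ, Nat.Coprime (p k) e ∧ l ^ e ∈ NT X := by
  classical
  have hfin : {j : ℕ | j ∈ X ∧ (φ l).c.coeff ((j : ℤ) + 1) ≠ 0}.Finite := by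
    have h1 : ((fun j : ℕ => (j : ℤ) + 1) ⁻¹' ((φ l).c.coeff.support : Set ℤ)).Finite :=
      (Finset.finite_toSet _).preimage (fun a _ b _ h => by simpa using h)
    refine h1.subset fun j hj => ?_
    simpa using hj.2
  refine ⟨∏ j ∈ hfin.toFinset, p j, ?_, ?_⟩
  · refine Nat.Coprime.prod_right fun j hj => ?_
    rw [Set.Finite.mem_toFinset] at hj
    exact (Nat.coprime_primes (p_prime k) (p_prime j)).2 fun h => hk (p_inj h ▸ hj.1)
  · have h := pow_c (φ l) hl.2.1 (∏ j ∈ hfin.toFinset, p j)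
    rw [mem_NT, map_pow, h.1, h.2, pow_n, hl.1]
    refine ⟨by simp, rfl, fun j hj => ?_⟩
    rw [natCast_coeff]
    by_cases h0 : (φ l).c.coeff ((j : ℤ) + 1) = 0
    · rw [h0]; simp
    · refine Dvd.dvd.mul_right (Int.natCast_dvd_natCast.2 ?_) _
      exact Finset.dvd_prod_of_mem _ ((Set.Finite.mem_toFinset _).2 ⟨hj, h0⟩)

theorem tor_fin (X : Set ℕ) (M : Subgroup F) [M.Normal] (hM : NT X ≤ M) :
    {k | Tor (· ∈ M) k ∧ k ∉ X}.Finite := by
  obtain ⟨E, hE, h⟩ := top_fin (M ⊔ NT ∅) le_sup_right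
  have hfin : (p ⁻¹' (E.divisors : Set ℕ)).Finite :=
    (Finset.finite_toSet _).preimage p_inj.injOn
  refine hfin.subset ?_
  rintro k ⟨⟨w, hw, hwp⟩, hk⟩
  simp only [Set.mem_preimage, Finset.mem_coe, Nat.mem_divisors]
  refine ⟨h _ (p_prime k) w ?_ (Subgroup.mem_sup_left hwp), hE⟩
  intro hin
  apply hw
  obtain ⟨m, hm, l, hl, rfl⟩ := Subgroup.mem_sup_of_normal_right.1 hin
  obtain ⟨e, he, hle⟩ := central_kill X k hk l hl
  have hm1 : (QuotientGroup.mk m : F ⧸ M) = 1 := (QuotientGroup.eq_one_iff _).2 hm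
  have h1 : (QuotientGroup.mk l : F ⧸ M) ^ p k = 1 := by
    have := (QuotientGroup.eq_one_iff _).2 hwp
    rwa [QuotientGroup.mk_pow, QuotientGroup.mk_mul, hm1, one_mul] at this
  have h2 : (QuotientGroup.mk l : F ⧸ M) ^ e = 1 := by
    rw [← QuotientGroup.mk_pow, QuotientGroup.eq_one_iff]; exact hM hle
  have h3 : (QuotientGroup.mk l : F ⧸ M) = 1 := by
    have := pow_gcd_eq_one.2 ⟨h1, h2⟩
    rwa [he.gcd_eq_one, pow_one] at this
  exact M.mul_mem hm ((QuotientGroup.eq_one_iff _).1 h3)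

end Pool.Agent.H729Z.ResP
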