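import Mathlib

/-!
A Hall-type group: a central extension of the wreath product of two infinite cyclic groups whose
centre contains a free abelian group of infinite rank.
-/

set_option autoImplicit false

namespace Pool.Agent.H729Z.ResP

open LaurentPolynomial

abbrev R : Type := LaurentPolynomial ℤ

@[ext] structure G where
  n : ℤ
  f : R
  c : R

noncomputable instance : Mul G :=
  ⟨fun x y => ⟨x.n + y.n, x.f + T x.n * y.f, x.c + y.c + invert x.f * (T x.n * y.f)⟩⟩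
noncomputable instance : One G := ⟨⟨0, 0, 0⟩⟩
noncomputable instance : Inv G := ⟨fun x => ⟨-x.n, -(T (-x.n) * x.f), -x.c + invert x.f * x.f⟩⟩

@[simp] theorem mul_n (x y : G) : (x * y).n = x.n + y.n := rfl
@[simp] theorem mul_f (x y : G) : (x * y).f = x.f + T x.n * y.f := rfl
@[simp] theorem mul_c (x y : G) : (x * y).c = x.c + y.c + invert x.f * (T x.n * y.f) := rfl
@[simp] theorem one_n : (1 : G).n = 0 := rfl
@[simp] theorem one_f : (1 : G).f = 0 := rfl
@[simp] theorem one_c : (1 : G).c = 0 := rfl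
@[simp] theorem inv_n (x : G) : (x⁻¹).n = -x.n := rfl
@[simp] theorem inv_f (x : G) : (x⁻¹).f = -(T (-x.n) * x.f) := rfl
@[simp] theorem inv_c (x : G) : (x⁻¹).c = -x.c + invert x.f * x.f := rfl

theorem T_neg_mul (a : ℤ) : (T (-a) : R) * T a = 1 := by rw [← T_add]; simp
theorem T_mul_neg (a : ℤ) : (T a : R) * T (-a) = 1 := by rw [← T_add]; simp

noncomputable instance : Group G := Group.ofLeftAxioms
  (fun x y z => by
    ext1
    · simp [add_assoc]
    · simp only [mul_f, mul_n, T_add]; ring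
    · simp only [mul_c, mul_f, mul_n, T_add, map_add, map_mul, invert_T]
      linear_combination (invert y.f * T y.n * z.f) * T_neg_mul x.n)
  (fun x => by ext1 <;> simp)
  (fun x => by
    ext1
    · simp
    · simp
    · simp only [mul_c, inv_c, inv_f, inv_n, map_neg, map_mul, invert_T, neg_neg, one_c]
      linear_combination (-(invert x.f * x.f)) * T_mul_neg x.n)

/-- the degree homomorphism -/
theorem pow_n (x : G) (k : ℕ) : (x ^ k).n = k * x.n := by
  induction k with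
  | zero => simp
  | succ k ih => rw [pow_succ, mul_n, ih]; push_cast; ring

theorem zpow_n (x : G) (k : ℤ) : (x ^ k).n = k * x.n := by
  obtain ⟨m, rfl | rfl⟩ := Int.eq_nat_or_neg k
  · rw [zpow_natCast, pow_n]
  · rw [zpow_neg, zpow_natCast, inv_n, pow_n]; ring

theorem pow_f (x : G) (hx : x.n = 0) (k : ℕ) : (x ^ k).f = (k : R) * x.f := by
  induction k with
  | zero => simp
  | succ k ih => rw [pow_succ, mul_f, ih, pow_n, hx]; push_cast; simp; ring

theorem pow_c (x : G) (hf : x.f = 0) (k : ℕ) : (x ^ k).c = (k : R) * x.c ∧ (x ^ k).f = 0 := by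
  induction k with
  | zero => simp
  | succ k ih => rw [pow_succ, mul_c, mul_f, ih.1, ih.2, hf]; push_cast; simp; ring

abbrev F : Type := FreeGroup (Fin 2)

/-- the marking -/
noncomputable def φ : F →* G := FreeGroup.lift ![⟨0, 1, 0⟩, ⟨1, 0, 0⟩]

def wa : F := FreeGroup.of 0
def wt : F := FreeGroup.of 1

theorem φ_wa : φ wa = ⟨0, 1, 0⟩ := by simp [φ, wa]
theorem φ_wt : φ wt = ⟨1, 0, 0⟩ := by simp [φ, wt]

theorem wt_zpow (k : ℤ) : φ (wt ^ k) = ⟨k, 0, 0⟩ := by
  rw [map_zpow, φ_wt]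
  induction k using Int.induction_on with
  | zero => rfl
  | succ k ih => rw [zpow_add_one, ih]; ext1 <;> simp
  | pred k ih => rw [zpow_sub_one, ih]; ext1 <;> simp [sub_eq_add_neg]

theorem conj_wt (k : ℤ) (w : F) (hw : (φ w).n = 0) :
    φ (wt ^ k * w * (wt ^ k)⁻¹) = ⟨0, T k * (φ w).f, (φ w).c⟩ := by
  rw [map_mul, map_mul, map_inv, wt_zpow]
  ext1 <;> simp [hw]

/-- the central words -/
def wc (j : ℤ) : F := wa * (wt ^ j * wa * (wt ^ j)⁻¹) * wa⁻¹ * (wt ^ j * wa * (wt ^ j)⁻¹)⁻¹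

theorem φ_wc (j : ℤ) : φ (wc j) = ⟨0, 0, T j - T (-j)⟩ := by
  have h := conj_wt j wa (by rw [φ_wa])
  rw [wc, map_mul, map_mul, map_mul, map_inv, map_inv, h, φ_wa]
  ext1
  · simp
  · simp
  · simp only [mul_c, mul_f, mul_n, inv_c, inv_f, inv_n, map_add, map_mul, map_neg, invert_T, map_one,
      mul_one, add_zero, neg_zero, T_zero, one_mul, zero_add]
    linear_combination (0 : R) * T_neg_mul j

/-- the primes -/
noncomputable def p (k : ℕ) : ℕ := Nat.nth Nat.Prime k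

theorem p_prime (k : ℕ) : (p k).Prime := Nat.prime_nth_prime k

theorem p_inj : Function.Injective p := Nat.nth_injective Nat.infinite_setOfPred_prime

theorem natCast_coeff (m : ℕ) (x : R) (j : ℤ) : ((m : R) * x).coeff j = m * x.coeff j := by
  induction m with
  | zero => simp
  | succ m ih =>
    rw [Nat.cast_succ, add_mul, one_mul, AddMonoidAlgebra.coeff_add, Finsupp.add_apply, ih]
    push_cast; ring

/-- the normal subgroup coded by a set of naturals -/
def NT (X : Set ℕ) : Subgroup F where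
  carrier := {w | (φ w).n = 0 ∧ (φ w).f = 0 ∧ ∀ k ∈ X, (p k : ℤ) ∣ (φ w).c.coeff ((k : ℤ) + 1)}
  one_mem' := by simp
  mul_mem' := by
    rintro a b ⟨ha1, ha2, ha3⟩ ⟨hb1, hb2, hb3⟩
    refine ⟨by simp [ha1, hb1], by simp [ha2, hb2], fun k hk => ?_⟩
    simpa [ha2, hb2] using dvd_add (ha3 k hk) (hb3 k hk)
  inv_mem' := by
    rintro a ⟨ha1, ha2, ha3⟩
    refine ⟨by simp [ha1], by simp [ha2], fun k hk => ?_⟩
    simpa [ha2] using ha3 k hk

theorem mem_NT {X : Set ℕ} {w : F} : w ∈ NT X ↔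
    (φ w).n = 0 ∧ (φ w).f = 0 ∧ ∀ k ∈ X, (p k : ℤ) ∣ (φ w).c.coeff ((k : ℤ) + 1) := Iff.rfl

theorem conj_central (g x : G) (h1 : x.n = 0) (h2 : x.f = 0) : g * x * g⁻¹ = x := by
  rw [mul_inv_eq_iff_eq_mul]
  ext1 <;> simp [h1, h2, add_comm]

instance NT_normal (X : Set ℕ) : (NT X).Normal := ⟨by
  rintro a ⟨ha1, ha2, ha3⟩ g
  have : φ (g * a * g⁻¹) = φ a := by rw [map_mul, map_mul, map_inv, conj_central _ _ ha1 ha2]
  rw [mem_NT, this]
  exact ⟨ha1, ha2, ha3⟩⟩

theorem NT_anti {X Y : Set ℕ} (h : X ⊆ Y) : NT Y ≤ NT X :=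
  fun _ hw => ⟨hw.1, hw.2.1, fun k hk => hw.2.2 k (h hk)⟩

/-- the quotient has an element of order `p k` -/
def Tor (m : F → Prop) (k : ℕ) : Prop := ∃ w, ¬ m w ∧ m (w ^ p k)

theorem wc_not_mem {X : Set ℕ} {k : ℕ} (hk : k ∈ X) : wc ((k : ℤ) + 1) ∉ NT X := by
  intro h
  have h3 := h.2.2 k hk
  rw [φ_wc] at h3
  have hne : ¬ (-((k : ℤ) + 1) = (k : ℤ) + 1) := by omega
  simp only [AddMonoidAlgebra.coeff_sub, Finsupp.coe_sub, Pi.sub_apply, T_apply, if_true, hne, if_false,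
    sub_zero] at h3
  have := Int.natCast_dvd_natCast.1 (show ((p k : ℕ) : ℤ) ∣ ((1 : ℕ) : ℤ) by simpa using h3)
  exact (p_prime k).one_lt.ne' (Nat.dvd_one.1 this)

theorem wc_pow_mem (X : Set ℕ) (k : ℕ) : wc ((k : ℤ) + 1) ^ p k ∈ NT X := by
  have h := pow_c (φ (wc ((k : ℤ) + 1))) (by rw [φ_wc]) (p k)
  rw [mem_NT, map_pow, h.1, h.2, pow_n, φ_wc]
  refine ⟨by simp, rfl, fun j _ => ?_⟩
  rw [natCast_coeff]
  by_cases hj : j = k
  · subst hj; exact Dvd.intro _ rfl
  · have h1 : ¬ ((k : ℤ) + 1 = (j : ℤ) + 1) := by omega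
    have h2 : ¬ (-((k : ℤ) + 1) = (j : ℤ) + 1) := by omega
    simp only [AddMonoidAlgebra.coeff_sub, Finsupp.coe_sub, Pi.sub_apply, T_apply, h1, h2, if_false,
      sub_zero, mul_zero, dvd_zero]

theorem central_of_pow {x : G} {m : ℕ} (hm : m ≠ 0) (h1 : (x ^ m).n = 0) (h2 : (x ^ m).f = 0) :
    x.n = 0 ∧ x.f = 0 := by
  have hn : x.n = 0 := by
    rw [pow_n] at h1
    rcases mul_eq_zero.1 h1 with h | h
    · exact absurd (by exact_mod_cast h) hm
    · exact h
  refine ⟨hn, ?_⟩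
  rw [pow_f x hn] at h2
  ext j
  have := congrArg (fun y : R => y.coeff j) h2
  simp only [natCast_coeff] at this
  simpa [hm] using this

theorem tor_NT (X : Set ℕ) (k : ℕ) : Tor (· ∈ NT X) k ↔ k ∈ X := by
  constructor
  · rintro ⟨w, hw, hp⟩
    by_contra hk
    apply hw
    obtain ⟨h1, h2, h3⟩ := hp
    rw [map_pow] at h1 h2 h3
    obtain ⟨hn, hf⟩ := central_of_pow (p_prime k).ne_zero h1 h2
    refine ⟨hn, hf, fun j hj => ?_⟩
    have h4 := h3 j hj
    rw [(pow_c _ hf _).1, natCast_coeff] at h4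
    have hne : p j ≠ p k := fun h => hk (p_inj h ▸ hj)
    have hcop : IsCoprime (p j : ℤ) (p k : ℤ) :=
      Nat.isCoprime_iff_coprime.2 ((Nat.coprime_primes (p_prime j) (p_prime k)).2 hne)
    exact hcop.dvd_of_dvd_mul_left h4
  · intro hk
    exact ⟨_, wc_not_mem hk, wc_pow_mem X k⟩

end Pool.Agent.H729Z.ResP
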