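import Pool.Agent.H729Z.ResP.Fin
import Pool.Agent.Helper222.CPE.NonBorel

/-!
A Borel property of two-generated marked groups whose residual version is not Borel.
-/

set_option autoImplicit false

namespace Pool.Agent.H729Z.ResP

open MeasureTheory Pool.Agent.Helper222.CPE.NB

/-- code of a node -/
def cd (s : List ℕ) : ℕ := Encodable.encode s + 1

theorem cd_inj : Function.Injective cd := fun _ _ h =>
  Encodable.encode_injective (Nat.succ_injective h)

def Cmp (s t : List ℕ) : Prop := ∃ z, Ext z s ∧ Ext z t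

/-- the property, as a condition on the set of indices of torsion primes -/
def PP (X : ℕ → Prop) : Prop :=
  ¬ X 0 ∨ ((∀ s t, X (cd s) → X (cd t) → Cmp s t) ∧ ∀ n, ∃ s, X (cd s) ∧ n ≤ s.length)

theorem exists_branch (Y : List ℕ → Prop) (h1 : ∀ s t, Y s → Y t → Cmp s t)
    (h2 : ∀ n, ∃ s, Y s ∧ n ≤ s.length) : ∃ z, ∀ s, Y s → Ext z s := by
  choose s hs hl using h2
  choose w hw _ using fun n => h1 (s n) (s n) (hs n) (hs n)
  refine ⟨fun m => w (m + 1) m, fun t ht => ?_⟩
  obtain ⟨v, hv, -⟩ := h1 t t ht ht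
  refine ext_congr (z := v) (fun m hm => ?_) hv
  obtain ⟨u, hu1, hu2⟩ := h1 t (s (m + 1)) ht (hs _)
  rw [ext_agree hv hu1 m hm, ext_agree hu2 (hw (m + 1)) m (hl (m + 1))]

theorem eq_br {z : ℕ → ℕ} {t : List ℕ} (h : Ext z t) : t = br z t.length := by
  induction t with
  | nil => rfl
  | cons i t ih => rw [List.length_cons, br, h.1, ← ih h.2]

/-- the tree of attempts -/
def Tr (c y : ℕ → ℕ) : Set ℕ :=
  {k | k = 0 ∨ ∃ s, k = cd s ∧ ∀ t, (∀ w, Ext w s → Ext w t) →
    c (Encodable.encode (br y t.length, t)) = 1}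

/-- the property as a set of subgroups -/
def S : Set (Subgroup F) := {N | PP (Tor (· ∈ N))}

theorem tor_iff (N : Subgroup F) [N.Normal] (k : ℕ) :
    Tor (· ∈ N) k ↔ ∃ h : F ⧸ N, h ≠ 1 ∧ h ^ p k = 1 := by
  constructor
  · rintro ⟨w, hw, hp⟩
    exact ⟨QuotientGroup.mk w, by rwa [Ne, QuotientGroup.eq_one_iff],
      by rw [← QuotientGroup.mk_pow, QuotientGroup.eq_one_iff]; exact hp⟩
  · rintro ⟨h, h1, h2⟩
    obtain ⟨w, rfl⟩ := QuotientGroup.mk_surjective h
    exact ⟨w, by rwa [Ne, QuotientGroup.eq_one_iff] at h1,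
      by rwa [← QuotientGroup.mk_pow, QuotientGroup.eq_one_iff] at h2⟩

theorem S_inv (N M : Subgroup F) [N.Normal] [M.Normal] (h : Nonempty ((F ⧸ N) ≃* (F ⧸ M))) :
    N ∈ S ↔ M ∈ S := by
  obtain ⟨e⟩ := h
  have : Tor (· ∈ N) = Tor (· ∈ M) := by
    funext k
    rw [tor_iff, tor_iff, eq_iff_iff]
    constructor
    · rintro ⟨h, h1, h2⟩
      exact ⟨e h, by simpa using h1, by rw [← map_pow, h2, map_one]⟩
    · rintro ⟨h, h1, h2⟩
      exact ⟨e.symm h, by simpa using h1, by rw [← map_pow, h2, map_one]⟩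
  show PP _ ↔ PP _
  rw [this]

theorem NT_mem_S (X : Set ℕ) : NT X ∈ S ↔ PP (· ∈ X) := by
  have : Tor (· ∈ NT X) = (· ∈ X) := by funext k; rw [tor_NT]
  show PP _ ↔ PP _
  rw [this]

theorem res_iff (c y : ℕ → ℕ) :
    (∀ g, g ∉ NT (Tr c y) → ∃ M : Subgroup F, M.Normal ∧ NT (Tr c y) ≤ M ∧ g ∉ M ∧ M ∈ S) ↔ Wu c y := by
  constructor
  · intro h
    obtain ⟨M, hMn, hle, hg, hS⟩ := h _ (wc_not_mem (X := Tr c y) (k := 0) (Or.inl rfl))
    have h0 : Tor (· ∈ M) 0 := ⟨_, hg, hle (wc_pow_mem _ 0)⟩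
    rcases hS with hS | ⟨h1, h2⟩
    · exact absurd h0 hS
    obtain ⟨z, hz⟩ := exists_branch (fun s => Tor (· ∈ M) (cd s)) h1 h2
    have hfin : {s : List ℕ | Tor (· ∈ M) (cd s) ∧ cd s ∉ Tr c y}.Finite :=
      (tor_fin (Tr c y) M hle).preimage cd_inj.injOn
    obtain ⟨B, hB⟩ := (hfin.image List.length).bddAbove
    refine ⟨z, fun n => ?_⟩
    obtain ⟨s, hs, hl⟩ := h2 (max n (B + 1))
    have hin : cd s ∈ Tr c y := by
      by_contra hn
      have := hB ⟨s, ⟨hs, hn⟩, rfl⟩
      have := le_max_right n (B + 1)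
      omega
    rcases hin with h3 | ⟨s', h3, h4⟩
    · exact absurd h3 (by simp [cd])
    obtain rfl := cd_inj h3
    have := h4 (br z n) fun w hw => (ext_iff_br w z n).2 fun m hm =>
      ext_agree hw (hz s hs) m (lt_of_lt_of_le hm ((le_max_left _ _).trans hl))
    rwa [br_length] at this
  · rintro ⟨z, hz⟩ g hg
    by_cases hL : g ∈ NT ∅
    · have : ∃ k ∈ Tr c y, ¬ (p k : ℤ) ∣ (φ g).c.coeff ((k : ℤ) + 1) := by
        by_contra hne
        push Not at hne
        exact hg ⟨hL.1, hL.2.1, hne⟩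
      obtain ⟨k, hk, hk'⟩ := this
      by_cases hk0 : k = 0
      · refine ⟨NT {j | j = 0 ∨ ∃ n, j = cd (br z n)}, inferInstance, NT_anti ?_,
          fun h => hk' (h.2.2 k (Or.inl hk0)), (NT_mem_S _).2 (Or.inr ⟨?_, ?_⟩)⟩
        · rintro j (rfl | ⟨n, rfl⟩)
          · exact Or.inl rfl
          · refine Or.inr ⟨_, rfl, fun t ht => ?_⟩
            have h1 := hz t.length
            rwa [← eq_br (ht z (ext_br z n))] at h1
        · rintro s t (hs | ⟨n, hs⟩) (ht | ⟨m, ht⟩)
          · exact absurd hs (by simp [cd])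
          · exact absurd hs (by simp [cd])
          · exact absurd ht (by simp [cd])
          · rw [cd_inj hs, cd_inj ht]
            exact ⟨z, ext_br z n, ext_br z m⟩
        · intro n
          exact ⟨br z n, Or.inr ⟨n, rfl⟩, (br_length z n).ge⟩
      · refine ⟨NT {k}, inferInstance, NT_anti (by simpa using hk), fun h => hk' (h.2.2 k rfl),
          (NT_mem_S _).2 (Or.inl fun h => hk0 (Set.mem_singleton_iff.1 h).symm)⟩
    · exact ⟨NT ∅, inferInstance, NT_anti (Set.empty_subset _), hL, (NT_mem_S _).2 (Or.inl fun h => h)⟩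

theorem meas_eval (g : F) : Measurable fun f : F → Bool => f g = true :=
  measurableSet_setOfPred.1 (show MeasurableSet ((fun f : F → Bool => f g) ⁻¹' {true}) from
    measurable_pi_apply g (measurableSet_singleton true))

theorem meas_tor (k : ℕ) : Measurable fun f : F → Bool => Tor (fun w => f w = true) k :=
  Measurable.exists fun w => (meas_eval w).not.and (meas_eval _)

theorem S_meas : MeasurableSet {f : F → Bool | ∃ N : Subgroup F,
    N.Normal ∧ N ∈ S ∧ ∀ g, f g = true ↔ g ∈ N} := by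
  have : {f : F → Bool | ∃ N : Subgroup F, N.Normal ∧ N ∈ S ∧ ∀ g, f g = true ↔ g ∈ N} =
      {f | f 1 = true ∧ (∀ a b, f a = true → f b = true → f (a * b) = true) ∧
        (∀ a, f a = true → f a⁻¹ = true) ∧ (∀ a g, f a = true → f (g * a * g⁻¹) = true) ∧
        PP (Tor fun w => f w = true)} := by
    ext f
    constructor
    · rintro ⟨N, hN, hS, hf⟩
      have h1 : (fun w => f w = true) = (· ∈ N) := by funext w; rw [hf]
      refine ⟨(hf _).2 N.one_mem, fun a b ha hb => (hf _).2 (N.mul_mem ((hf _).1 ha) ((hf _).1 hb)),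
        fun a ha => (hf _).2 (N.inv_mem ((hf _).1 ha)),
        fun a g ha => (hf _).2 (hN.conj_mem _ ((hf _).1 ha) g), ?_⟩
      rw [h1]; exact hS
    · rintro ⟨h1, h2, h3, h4, h5⟩
      exact ⟨{ carrier := {w | f w = true}, one_mem' := h1, mul_mem' := fun ha hb => h2 _ _ ha hb,
               inv_mem' := fun ha => h3 _ ha }, ⟨fun a ha g => h4 a g ha⟩, h5, fun _ => Iff.rfl⟩
  rw [this, measurableSet_setOfPred]
  refine (meas_eval _).and (Measurable.and ?_ (Measurable.and ?_ (Measurable.and ?_ ?_)))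
  · exact Measurable.forall fun a => Measurable.forall fun b =>
      (meas_eval _).imp ((meas_eval _).imp (meas_eval _))
  · exact Measurable.forall fun a => (meas_eval _).imp (meas_eval _)
  · exact Measurable.forall fun a => Measurable.forall fun b => (meas_eval _).imp (meas_eval _)
  · exact (meas_tor 0).not.or ((Measurable.forall fun s => Measurable.forall fun t =>
      (meas_tor _).imp ((meas_tor _).imp measurable_const)).and
      (Measurable.forall fun n => Measurable.exists fun s => (meas_tor _).and measurable_const))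

theorem meas_code (c : ℕ → ℕ) (t : List ℕ) :
    Measurable fun y : ℕ → ℕ => c (Encodable.encode (br y t.length, t)) = 1 := by
  have : (fun y : ℕ → ℕ => c (Encodable.encode (br y t.length, t)) = 1) =
      fun y => ∃ u, br y t.length = u ∧ c (Encodable.encode (u, t)) = 1 := by
    funext y; simp
  rw [this]
  exact Measurable.exists fun u => (measurableSet_setOfPred.1 (measurable_br _ u)).and measurable_const

theorem meas_NT (c : ℕ → ℕ) (g : F) : Measurable fun y : ℕ → ℕ => g ∈ NT (Tr c y) :=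
  measurable_const.and (measurable_const.and (Measurable.forall fun _ => Measurable.imp
    (measurable_const.or (Measurable.exists fun _ => measurable_const.and
      (Measurable.forall fun t => measurable_const.imp (meas_code c t)))) measurable_const))

open Classical in
theorem res_not_meas : ¬ MeasurableSet {f : F → Bool | ∃ N : Subgroup F, N.Normal ∧
    (∀ g : F, g ∉ N → ∃ M : Subgroup F, M.Normal ∧ N ≤ M ∧ g ∉ M ∧ M ∈ S) ∧
    ∀ g, f g = true ↔ g ∈ N} := by
  intro h
  obtain ⟨D, hD, hD'⟩ := exists_analytic_not_measurable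
  obtain ⟨c, hc⟩ := universal D hD
  have hm : Measurable fun (y : ℕ → ℕ) (g : F) => decide (g ∈ NT (Tr c y)) := by
    refine measurable_pi_lambda _ fun g => measurable_to_bool ?_
    have : (fun y : ℕ → ℕ => decide (g ∈ NT (Tr c y))) ⁻¹' {true} = {y | g ∈ NT (Tr c y)} := by
      ext y; simp
    rw [this]
    exact measurableSet_setOfPred.2 (meas_NT c g)
  apply hD'
  convert hm h using 1
  ext y
  rw [hc, ← res_iff]
  constructor
  · intro h1
    exact ⟨NT (Tr c y), inferInstance, h1, fun g => by simp⟩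
  · rintro ⟨N, _, h1, h2⟩
    have : N = NT (Tr c y) := by
      ext g; rw [← h2]; simp
    rw [← this]; exact h1

end Pool.Agent.H729Z.ResP
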